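import Pool.Agent.H5.HT.N1

/-!
Quadratic extensions: the involution, irreducible polynomials of odd degree, and the quadratic step
for sets of polynomials.
-/

set_option autoImplicit false

namespace Pool.HT5

open Polynomial

section Quad

variable {K L : Type*} [Field K] [Field L] [Algebra K L]

/-- A polynomial fixed by the involution comes from `K`. -/
lemma pol_fixed (σ : L ≃ₐ[K] L) (hfix : ∀ x : L, σ x = x → ∃ y, algebraMap K L y = x) (p : L[X])
    (hp : p.map (σ : L →+* L) = p) : ∃ P : K[X], P.map (algebraMap K L) = p := by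
  have hl : p ∈ Polynomial.lifts (algebraMap K L) := by
    rw [Polynomial.lifts_iff_coeff_lifts]
    intro n
    have := congrArg (fun q => Polynomial.coeff q n) hp
    obtain ⟨y, hy⟩ := hfix (p.coeff n) (by simpa [coeff_map] using this)
    exact ⟨y, hy⟩
  exact (Polynomial.mem_lifts p).1 hl

/-- An irreducible polynomial of odd degree stays irreducible in a quadratic extension. -/
lemma irr_quad (σ : L ≃ₐ[K] L) (hs : ∀ x, σ (σ x) = x)
    (hfix : ∀ x : L, σ x = x → ∃ y, algebraMap K L y = x) (f : K[X]) (hf : f.Monic)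
    (hodd : Odd f.natDegree) (hirr : Irreducible f) : Irreducible (fL L f) := by
  have hm : (fL L f).Monic := hf.map _
  have hn : (fL L f).natDegree = f.natDegree := hf.natDegree_map _
  have hnu : ¬ IsUnit (fL L f) := by
    intro h
    have := hm.isUnit_iff.1 h
    have h0 : (fL L f).natDegree = 0 := by rw [this]; simp
    rw [hn] at h0
    rw [h0] at hodd
    exact absurd hodd (by decide)
  obtain ⟨g, hgm, hgi, hgd⟩ := Polynomial.exists_monic_irreducible_factor (fL L f) hnu
  set τ : L[X] →+* L[X] := Polynomial.mapRingHom (σ : L →+* L) with hτ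
  have hττ : ∀ p : L[X], (p.map (σ : L →+* L)).map (σ : L →+* L) = p := by
    intro p
    rw [Polynomial.map_map]
    ext n
    rw [coeff_map]
    simp [hs]
  have hfτ : (fL L f).map (σ : L →+* L) = fL L f := by
    rw [Polynomial.map_map]
    congr 1
    ext x; simp
  have hgd' : g.map (σ : L →+* L) ∣ fL L f := by
    rw [← hfτ]
    exact Polynomial.map_dvd _ hgd
  have hgi' : Irreducible (g.map (σ : L →+* L)) := by
    have := (MulEquiv.irreducible_iff (Polynomial.mapEquiv (σ : L ≃+* L)) (x := g)).2 hgi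
    exact this
  have hgm' : (g.map (σ : L →+* L)).Monic := hgm.map _
  have key : ∀ P : K[X], P.map (algebraMap K L) ∣ fL L f → (P.map (algebraMap K L)).Monic →
      ¬ IsUnit (P.map (algebraMap K L)) → P = f := by
    intro P hd hPm hPu
    have hPd : P ∣ f := (Polynomial.map_dvd_map' (algebraMap K L)).1 hd
    have hPm' : P.Monic := Polynomial.monic_of_injective (algebraMap K L).injective hPm
    have hPn : ¬ IsUnit P := fun h => hPu (h.map (Polynomial.mapRingHom (algebraMap K L)))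
    exact (Polynomial.eq_of_monic_of_associated hf hPm'
      ((hirr.dvd_iff.mp hPd).resolve_left hPn)).symm
  by_cases hg : g.map (σ : L →+* L) = g
  · obtain ⟨P, hP⟩ := pol_fixed σ hfix g hg
    have := key P (by rw [hP]; exact hgd) (by rw [hP]; exact hgm)
      (by rw [hP]; exact hgi.not_isUnit)
    rw [this] at hP
    change fL L f = g at hP
    rw [hP]; exact hgi
  · exfalso
    have hcop : IsCoprime g (g.map (σ : L →+* L)) := by
      rw [hgi.coprime_iff_not_dvd]
      intro hd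
      exact hg (Polynomial.eq_of_monic_of_associated hgm hgm' (hgi.associated_of_dvd hgi' hd)).symm
    have hmul : g * g.map (σ : L →+* L) ∣ fL L f := hcop.mul_dvd hgd hgd'
    have hfx : (g * g.map (σ : L →+* L)).map (σ : L →+* L) = g * g.map (σ : L →+* L) := by
      rw [Polynomial.map_mul, hττ, mul_comm]
    obtain ⟨P, hP⟩ := pol_fixed σ hfix _ hfx
    have hmm : (g * g.map (σ : L →+* L)).Monic := hgm.mul hgm'
    have := key P (by rw [hP]; exact hmul) (by rw [hP]; exact hmm)
      (by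
        rw [hP]
        intro h
        exact hgi.not_isUnit (isUnit_of_mul_isUnit_left h))
    rw [this] at hP
    change fL L f = g * g.map (σ : L →+* L) at hP
    have h1 : f.natDegree = g.natDegree + g.natDegree := by
      rw [← hn, hP, hgm.natDegree_mul hgm', Polynomial.natDegree_map]
    rw [h1] at hodd
    exact (Nat.not_odd_iff_even.2 ⟨g.natDegree, rfl⟩) hodd

/-- The quadratic step for sets of polynomials. -/
theorem quad_step (h2 : (2 : K) ≠ 0) (σ : L ≃ₐ[K] L) (hs : ∀ x, σ (σ x) = x)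
    (hfix : ∀ x : L, σ x = x → ∃ y, algebraMap K L y = x) (x₀ : L) (hx₀ : σ x₀ ≠ x₀)
    (f : K[X]) (hf : f.Monic) (hodd : Odd f.natDegree) (hirr : Irreducible f) (W : Set L[X])
    (hW0 : ∀ p ∈ W, IsCoprime p (f.map (algebraMap K L)) ∧
      IsSquare (Algebra.norm L (AdjoinRoot.mk (f.map (algebraMap K L)) p)))
    (hWm : ∀ p ∈ W, ∀ q ∈ W, p * q ∈ W)
    (hWq : ∀ p ∈ W, ∀ q s : L[X], IsCoprime s (f.map (algebraMap K L)) →
      f.map (algebraMap K L) ∣ q - p * s ^ 2 → q ∈ W)
    (hWs : ∀ p ∈ W, p.map (σ : L →+* L) ∈ W)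
    (hp : ∃ p ∈ W, ¬ ∃ s : L[X], f.map (algebraMap K L) ∣ p - s ^ 2) :
    ∃ α : K[X], IsCoprime α f ∧ IsSquare (Algebra.norm K (AdjoinRoot.mk f α)) ∧
      (¬ ∃ s : K[X], f ∣ α - s ^ 2) ∧ α.map (algebraMap K L) ∈ W := by
  by_contra hcon
  have hirrL : Irreducible (fL L f) := irr_quad σ hs hfix f hf hodd hirr
  have fact : Fact (Irreducible (fL L f)) := ⟨hirrL⟩
  have factK : Fact (Irreducible f) := ⟨hirr⟩
  have hcopL : ∀ s : L[X], AdjoinRoot.mk (fL L f) s ≠ 0 → IsCoprime s (fL L f) := by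
    intro s hs0
    have : ¬ fL L f ∣ s := fun h => hs0 (AdjoinRoot.mk_eq_zero.2 h)
    exact ((hirrL.coprime_iff_not_dvd).2 this).symm
  have hcop0 : ∀ s : L[X], IsCoprime s (fL L f) → AdjoinRoot.mk (fL L f) s ≠ 0 := by
    intro s hc h0
    have hd : fL L f ∣ s := AdjoinRoot.mk_eq_zero.1 h0
    exact hirrL.not_isUnit (hc.isUnit_of_dvd' hd dvd_rfl)
  set S : Set (AdjoinRoot (fL L f)) := {u | ∃ p ∈ W, AdjoinRoot.mk (fL L f) p = u} with hS
  have hL2 : (2 : L) ≠ 0 := by
    intro h
    apply h2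
    apply (algebraMap K L).injective
    rw [map_ofNat, h, map_zero]
  have hθ : σ (x₀ - σ x₀) = -(x₀ - σ x₀) := by rw [map_sub, hs]; ring
  have hθ0 : x₀ - σ x₀ ≠ 0 := sub_ne_zero.2 (Ne.symm hx₀)
  have hstep := step hL2 σ hs hfix (x₀ - σ x₀) hθ0 hθ f hf hodd hirrL S
    (by
      rintro u ⟨p, hpW, rfl⟩
      exact hcop0 p (hW0 p hpW).1)
    (by
      rintro u ⟨p, hpW, rfl⟩
      exact (hW0 p hpW).2)
    (by
      rintro u ⟨p, hpW, rfl⟩ v ⟨q, hqW, rfl⟩
      exact ⟨p * q, hWm p hpW q hqW, by rw [map_mul]⟩)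
    (by
      rintro u ⟨p, hpW, rfl⟩ g hg
      obtain ⟨s, rfl⟩ := AdjoinRoot.mk_surjective g
      refine ⟨p * s ^ 2, hWq p hpW (p * s ^ 2) s (hcopL s hg) (by simp), by
        rw [map_mul, map_pow]⟩)
    (by
      rintro u ⟨p, hpW, rfl⟩
      exact ⟨p.map (σ : L →+* L), hWs p hpW, by rw [sg_mk]⟩)
    (by
      intro a ha0 han haS
      obtain ⟨α, rfl⟩ := AdjoinRoot.mk_surjective a
      obtain ⟨p, hpW, hpe⟩ := haS
      rw [io_mk] at hpe
      have hαW : α.map (algebraMap K L) ∈ W := by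
        refine hWq p hpW _ 1 isCoprime_one_left ?_
        rw [one_pow, mul_one]
        exact AdjoinRoot.mk_eq_mk.1 hpe.symm
      have hαc : IsCoprime α f := by
        have : ¬ f ∣ α := fun h => ha0 (AdjoinRoot.mk_eq_zero.2 h)
        exact ((hirr.coprime_iff_not_dvd).2 this).symm
      by_contra hns
      apply hcon
      refine ⟨α, hαc, han, ?_, hαW⟩
      rintro ⟨s, hsd⟩
      exact hns ⟨AdjoinRoot.mk f s, by rw [← map_mul, ← pow_two]; exact AdjoinRoot.mk_eq_mk.2 hsd⟩)
  obtain ⟨p, hpW, hpn⟩ := hp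
  obtain ⟨r, hr⟩ := hstep _ ⟨p, hpW, rfl⟩
  obtain ⟨s, rfl⟩ := AdjoinRoot.mk_surjective r
  exact hpn ⟨s, by rw [pow_two]; exact AdjoinRoot.mk_eq_mk.1 (by rw [hr, map_mul])⟩

end Quad

end Pool.HT5
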