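import Mathlib

/-!
Descent of classes modulo squares of square norm in a quadratic extension, for the algebras
`K[X] / (f)`, `f` of odd degree.
-/

set_option autoImplicit false

namespace Pool.HT5

open Polynomial

/-- The norm and a homomorphism which takes a basis to a basis. -/
lemma norm_hom {K L A B ι : Type*} [Field K] [Field L] (θ : K →+* L) [CommRing A] [Algebra K A]
    [CommRing B] [Algebra L B] [Fintype ι] [DecidableEq ι] (b : Module.Basis ι K A)
    (b' : Module.Basis ι L B) (φ : A →+* B) (h : ∀ i, φ (b i) = b' i)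
    (hc : ∀ c : K, φ (algebraMap K A c) = algebraMap L B (θ c)) (a : A) :
    Algebra.norm L (φ a) = θ (Algebra.norm K a) := by
  have hs : ∀ (c : K) (x : A), φ (c • x) = (θ c) • φ x := by
    intro c x
    rw [Algebra.smul_def, map_mul, hc, ← Algebra.smul_def]
  have hr : ∀ (x : A) (i : ι), b'.repr (φ x) i = θ (b.repr x i) := by
    intro x i
    have hx : φ x = ∑ j, (θ (b.repr x j)) • b' j := by
      conv_lhs => rw [← b.sum_repr x]
      rw [map_sum]
      exact Finset.sum_congr rfl fun j _ => by rw [hs, h]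
    rw [hx, b'.repr_sum_self]
  rw [Algebra.norm_eq_matrix_det b, Algebra.norm_eq_matrix_det b', RingHom.map_det]
  congr 1
  ext i j
  rw [Algebra.leftMulMatrix_eq_repr_mul, RingHom.mapMatrix_apply, Matrix.map_apply,
    Algebra.leftMulMatrix_eq_repr_mul, ← hr, RingHom.map_mul, h]

section Fix

variable {K L : Type*} [Field K] [Field L] [Algebra K L]

/-- The polynomial over the extension. -/
noncomputable abbrev fL (L : Type*) [Field L] [Algebra K L] (f : K[X]) : L[X] :=
  f.map (algebraMap K L)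

/-- The map of algebras. -/
noncomputable def io (L : Type*) [Field L] [Algebra K L] (f : K[X]) :
    AdjoinRoot f →+* AdjoinRoot (fL L f) :=
  AdjoinRoot.map (algebraMap K L) f (fL L f) dvd_rfl

lemma amap_mk {R S : Type*} [CommRing R] [CommRing S] (φ : R →+* S) (p : R[X]) (q : S[X])
    (h : q ∣ p.map φ) (x : R[X]) :
    AdjoinRoot.map φ p q h (AdjoinRoot.mk p x) = AdjoinRoot.mk q (x.map φ) := by
  have : ((AdjoinRoot.map φ p q h).comp (AdjoinRoot.mk p)) =
      (AdjoinRoot.mk q).comp (Polynomial.mapRingHom φ) := by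
    apply Polynomial.ringHom_ext
    · intro a
      simp
    · simp
  exact DFunLike.congr_fun this x

lemma io_mk (f p : K[X]) : io L f (AdjoinRoot.mk f p) = AdjoinRoot.mk (fL L f)
    (p.map (algebraMap K L)) := amap_mk _ _ _ _ _

/-- The action of an automorphism. -/
noncomputable def sg (σ : L ≃ₐ[K] L) (f : K[X]) : AdjoinRoot (fL L f) →+* AdjoinRoot (fL L f) :=
  AdjoinRoot.map (σ : L →+* L) (fL L f) (fL L f) (by
    rw [Polynomial.map_map]
    have : ((σ : L →+* L).comp (algebraMap K L)) = algebraMap K L := by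
      ext x; simp
    rw [this])

lemma sg_mk (σ : L ≃ₐ[K] L) (f : K[X]) (p : L[X]) : sg σ f (AdjoinRoot.mk (fL L f) p) =
    AdjoinRoot.mk (fL L f) (p.map (σ : L →+* L)) := amap_mk _ _ _ _ _

lemma sg_io (σ : L ≃ₐ[K] L) (f : K[X]) (a : AdjoinRoot f) : sg σ f (io L f a) = io L f a := by
  obtain ⟨p, rfl⟩ := AdjoinRoot.mk_surjective a
  rw [io_mk, sg_mk, Polynomial.map_map]
  congr 2
  ext x; simp

lemma sg_al (σ : L ≃ₐ[K] L) (f : K[X]) (x : L) : sg σ f (algebraMap L _ x) =
    algebraMap L _ (σ x) := by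
  rw [AdjoinRoot.algebraMap_eq]
  unfold sg
  rw [AdjoinRoot.map_of]
  rfl

lemma sg_sg (σ : L ≃ₐ[K] L) (h2 : ∀ x, σ (σ x) = x) (f : K[X]) (a : AdjoinRoot (fL L f)) :
    sg σ f (sg σ f a) = a := by
  obtain ⟨p, rfl⟩ := AdjoinRoot.mk_surjective a
  rw [sg_mk, sg_mk, Polynomial.map_map]
  congr 1
  ext n
  rw [coeff_map]
  simp [h2]

lemma io_al (f : K[X]) (x : K) : io L f (algebraMap K _ x) =
    algebraMap L _ (algebraMap K L x) := by
  rw [AdjoinRoot.algebraMap_eq, AdjoinRoot.algebraMap_eq]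
  unfold io
  rw [AdjoinRoot.map_of]

/-- Fixed elements come from `K`. -/
lemma fixed (f : K[X]) (hf : f.Monic) (σ : L ≃ₐ[K] L)
    (hfix : ∀ x : L, σ x = x → ∃ y, algebraMap K L y = x) (a : AdjoinRoot (fL L f))
    (ha : sg σ f a = a) : ∃ b, io L f b = a := by
  have hm : (fL L f).Monic := hf.map _
  obtain ⟨p, rfl⟩ := AdjoinRoot.mk_surjective a
  by_cases h1 : fL L f = 1
  · refine ⟨0, ?_⟩
    rw [map_zero]
    symm
    rw [AdjoinRoot.mk_eq_zero, h1]
    exact one_dvd _
  have hq : AdjoinRoot.mk (fL L f) p = AdjoinRoot.mk (fL L f) (p %ₘ fL L f) := by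
    rw [AdjoinRoot.mk_eq_mk]
    refine ⟨p /ₘ fL L f, ?_⟩
    rw [eq_comm, ← sub_eq_iff_eq_add'.mpr (Polynomial.modByMonic_add_div p (fL L f)).symm]
  rw [hq] at ha ⊢
  set r := p %ₘ fL L f with hr
  have hd : r.degree < (fL L f).degree := Polynomial.degree_modByMonic_lt _ hm
  rw [sg_mk, AdjoinRoot.mk_eq_mk] at ha
  have h0 : r.map (σ : L →+* L) - r = 0 := by
    apply Polynomial.eq_zero_of_dvd_of_degree_lt ha
    refine lt_of_le_of_lt (Polynomial.degree_sub_le _ _) (max_lt ?_ hd)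
    exact lt_of_le_of_lt Polynomial.degree_map_le hd
  rw [sub_eq_zero] at h0
  have hc : ∀ n, ∃ y, algebraMap K L y = r.coeff n := by
    intro n
    apply hfix
    have := congrArg (fun q => Polynomial.coeff q n) h0
    simpa [coeff_map] using this
  have hl : r ∈ Polynomial.lifts (algebraMap K L) := by
    rw [Polynomial.lifts_iff_coeff_lifts]
    intro n
    obtain ⟨y, hy⟩ := hc n
    exact ⟨y, hy⟩
  obtain ⟨P, hP⟩ := (Polynomial.mem_lifts r).1 hl
  exact ⟨AdjoinRoot.mk f P, by rw [io_mk, hP]⟩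

/-- The basis of powers. -/
noncomputable def bas (f : K[X]) (hf : f.Monic) : Module.Basis (Fin f.natDegree) K (AdjoinRoot f) :=
  (AdjoinRoot.powerBasis' hf).basis

lemma bas_ap (f : K[X]) (hf : f.Monic) (i : Fin f.natDegree) :
    bas f hf i = AdjoinRoot.root f ^ (i : ℕ) := by
  exact PowerBasis.basis_eq_pow (AdjoinRoot.powerBasis' hf) i

lemma sg_root (σ : L ≃ₐ[K] L) (f : K[X]) : sg σ f (AdjoinRoot.root (fL L f)) =
    AdjoinRoot.root (fL L f) := by
  unfold sg
  rw [AdjoinRoot.map_root]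

lemma io_root (f : K[X]) : io L f (AdjoinRoot.root f) = AdjoinRoot.root (fL L f) := by
  unfold io
  rw [AdjoinRoot.map_root]

lemma norm_sg (σ : L ≃ₐ[K] L) (f : K[X]) (hf : f.Monic) (a : AdjoinRoot (fL L f)) :
    Algebra.norm L (sg σ f a) = σ (Algebra.norm L a) := by
  have hm : (fL L f).Monic := hf.map _
  refine norm_hom (σ : L →+* L) (bas (fL L f) hm) (bas (fL L f) hm) (sg σ f) ?_ ?_ a
  · intro i
    rw [bas_ap, map_pow, sg_root]
  · intro c
    rw [sg_al]
    rfl

lemma norm_io (f : K[X]) (hf : f.Monic) (a : AdjoinRoot f) :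
    Algebra.norm L (io L f a) = algebraMap K L (Algebra.norm K a) := by
  have hm : (fL L f).Monic := hf.map _
  have hn : f.natDegree = (fL L f).natDegree := (hf.natDegree_map _).symm
  refine norm_hom (algebraMap K L) (bas f hf) ((bas (fL L f) hm).reindex (finCongr hn.symm))
    (io L f) ?_ ?_ a
  · intro i
    rw [bas_ap, map_pow, io_root, Module.Basis.reindex_apply, bas_ap]
    simp
  · intro c
    rw [io_al]

/-- **Descent.** `L / K` is quadratic with involution `σ`, `θ ∈ L` with `σ θ = - θ`, `f` is monic of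
odd degree and irreducible over `L`.  A class modulo squares of square norm which is fixed by `σ` is
the image of a class of square norm over `K`. -/
theorem descent (h2 : (2 : L) ≠ 0) (σ : L ≃ₐ[K] L) (hs : ∀ x, σ (σ x) = x)
    (hfix : ∀ x : L, σ x = x → ∃ y, algebraMap K L y = x) (θ : L) (hθ0 : θ ≠ 0) (hθ : σ θ = -θ)
    (f : K[X]) (hf : f.Monic) (hodd : Odd f.natDegree) (hirr : Irreducible (fL L f))
    (u β : AdjoinRoot (fL L f)) (hu0 : u ≠ 0) (hu : IsSquare (Algebra.norm L u))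
    (hβ : sg σ f u = u * β ^ 2) :
    ∃ a : AdjoinRoot f, a ≠ 0 ∧ IsSquare (Algebra.norm K a) ∧
      ∃ g : AdjoinRoot (fL L f), g ≠ 0 ∧ io L f a = u * g ^ 2 := by
  have : Fact (Irreducible (fL L f)) := ⟨hirr⟩
  have hm : (fL L f).Monic := hf.map _
  have hn : (fL L f).natDegree = f.natDegree := hf.natDegree_map _
  set N : AdjoinRoot (fL L f) →* L := Algebra.norm L with hN
  have hsinj : Function.Injective (sg σ f) := (sg σ f).injective
  have hsu : sg σ f u ≠ 0 := by
    rw [Ne, map_eq_zero]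
    exact hu0
  have hβ0 : β ≠ 0 := by
    rintro rfl
    apply hsu
    rw [hβ]; simp
  have hfin : Module.Finite L (AdjoinRoot (fL L f)) := hm.finite_adjoinRoot
  have hN0 : ∀ x : AdjoinRoot (fL L f), x ≠ 0 → N x ≠ 0 := by
    intro x hx
    exact (Algebra.norm_ne_zero_iff).2 hx
  -- `β σ(β) = ± 1`
  have he : (β * sg σ f β) ^ 2 = 1 := by
    have h1 := congrArg (sg σ f) hβ
    rw [sg_sg σ hs, map_mul, map_pow, hβ] at h1
    have h3 : u * (β * sg σ f β) ^ 2 = u * 1 := by
      rw [mul_one]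
      calc u * (β * sg σ f β) ^ 2 = u * β ^ 2 * (sg σ f β) ^ 2 := by ring
        _ = u := h1.symm
    exact mul_left_cancel₀ hu0 h3
  obtain ⟨c, hc⟩ := hu
  have hc0 : c ≠ 0 := by
    rintro rfl
    exact hN0 u hu0 (by rw [hN] at *; simpa using hc)
  have hNs : ∀ x, N (sg σ f x) = σ (N x) := fun x => norm_sg σ f hf x
  have hNb : N β * σ (N β) = 1 := by
    have h1 : (σ c) ^ 2 = (c * N β) ^ 2 := by
      have := congrArg N hβ
      rw [hNs, map_mul, map_pow] at this
      have h4 : N u = c * c := hc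
      rw [h4, map_mul] at this
      rw [pow_two, this]; ring
    have h5 : σ c = c * N β ∨ σ c = -(c * N β) := sq_eq_sq_iff_eq_or_eq_neg.1 h1
    have hsc : σ (σ c) = c := hs c
    rcases h5 with h5 | h5
    · have : σ (σ c) = c * (N β * σ (N β)) := by
        rw [h5, map_mul, h5]; ring
      rw [hsc] at this
      exact (mul_left_cancel₀ hc0 (by rw [mul_one]; exact this)).symm
    · have : σ (σ c) = c * (N β * σ (N β)) := by
        rw [h5, map_neg, map_mul, h5]; ring
      rw [hsc] at this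
      exact (mul_left_cancel₀ hc0 (by rw [mul_one]; exact this)).symm
  have hb1 : β * sg σ f β = 1 := by
    rcases mul_self_eq_one_iff.1 ((pow_two _).symm.trans he) with h | h
    · exact h
    · exfalso
      have h6 : N (β * sg σ f β) = 1 := by rw [map_mul, hNs]; exact hNb
      rw [h] at h6
      have h7 : N (-1 : AdjoinRoot (fL L f)) = (-1) ^ f.natDegree := by
        have : (-1 : AdjoinRoot (fL L f)) = algebraMap L _ (-1) := by simp
        rw [this, hN, Algebra.norm_algebraMap, ← hn]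
        congr 1
        rw [(AdjoinRoot.powerBasis' hm).finrank]
        rfl
      rw [h7, hodd.neg_one_pow] at h6
      apply h2
      have : (1 : L) + 1 = 0 := by nth_rw 1 [← h6]; ring
      rw [← one_add_one_eq_two]; exact this
  -- Hilbert 90
  have h90 : ∃ g : AdjoinRoot (fL L f), g ≠ 0 ∧ g = β * sg σ f g := by
    by_cases hb : β = -1
    · refine ⟨algebraMap L _ θ, ?_, ?_⟩
      · rw [Ne, map_eq_zero]; exact hθ0
      · rw [sg_al, hθ, hb, map_neg]; ring
    · refine ⟨1 + β, fun h => hb (eq_neg_of_add_eq_zero_right h), ?_⟩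
      rw [map_add, map_one, mul_add, mul_one, hb1, add_comm]
  obtain ⟨g, hg0, hg⟩ := h90
  have hfx : sg σ f (u * g ^ 2) = u * g ^ 2 := by
    rw [map_mul, map_pow, hβ]
    calc u * β ^ 2 * (sg σ f g) ^ 2 = u * (β * sg σ f g) ^ 2 := by ring
      _ = u * g ^ 2 := by rw [← hg]
  obtain ⟨a, ha⟩ := fixed f hf σ hfix _ hfx
  have ha0 : a ≠ 0 := by
    rintro rfl
    rw [map_zero] at ha
    exact (mul_ne_zero hu0 (pow_ne_zero 2 hg0)) ha.symm
  have hna : algebraMap K L (Algebra.norm K a) = (c * N g) ^ 2 := by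
    rw [← norm_io f hf, ha]
    have : N (u * g ^ 2) = (c * N g) ^ 2 := by
      rw [map_mul, map_pow]
      have h4 : N u = c * c := hc
      rw [h4]; ring
    exact this
  set c' : L := c * N g with hc'
  have hc'0 : c' ≠ 0 := mul_ne_zero hc0 (hN0 g hg0)
  have hsq : (σ c') ^ 2 = c' ^ 2 := by
    rw [← map_pow, ← hna, AlgEquiv.commutes]
  rcases sq_eq_sq_iff_eq_or_eq_neg.1 hsq with h | h
  · obtain ⟨y, hy⟩ := hfix _ h
    refine ⟨a, ha0, ⟨y, ?_⟩, g, hg0, ha⟩
    apply (algebraMap K L).injective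
    rw [hna, ← hy, map_mul, pow_two]
  · -- multiply by `θ²`
    have hD : σ (θ ^ 2) = θ ^ 2 := by rw [map_pow, hθ]; ring
    obtain ⟨D, hD⟩ := hfix _ hD
    have hD0 : D ≠ 0 := by
      rintro rfl
      rw [map_zero] at hD
      exact (pow_ne_zero 2 hθ0) hD.symm
    have hk : σ (c' / θ) = c' / θ := by
      rw [map_div₀, h, hθ, neg_div_neg_eq]
    obtain ⟨k, hk⟩ := hfix _ hk
    have hnk : Algebra.norm K a = D * k ^ 2 := by
      apply (algebraMap K L).injective
      rw [hna, map_mul, map_pow, hD, hk, div_pow, mul_div_cancel₀]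
      exact pow_ne_zero 2 hθ0
    refine ⟨algebraMap K _ D * a, ?_, ?_, algebraMap L _ θ * g, ?_, ?_⟩
    · intro h0
      have h9 := congrArg (io L f) h0
      rw [map_mul, map_zero, io_al, ha] at h9
      have h10 : algebraMap L (AdjoinRoot (fL L f)) (algebraMap K L D) ≠ 0 := by
        rw [Ne, map_eq_zero, map_eq_zero]; exact hD0
      exact (mul_ne_zero h10 (mul_ne_zero hu0 (pow_ne_zero 2 hg0))) h9
    · rw [map_mul, Algebra.norm_algebraMap, hnk]
      have hfr : Module.finrank K (AdjoinRoot f) = f.natDegree := by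
        rw [(AdjoinRoot.powerBasis' hf).finrank]
        rfl
      rw [hfr]
      obtain ⟨m, hm2⟩ := hodd
      refine ⟨D ^ (m + 1) * k, ?_⟩
      rw [hm2]; ring
    · refine mul_ne_zero ?_ hg0
      rw [Ne, map_eq_zero]; exact hθ0
    · rw [map_mul, io_al, ha, hD, map_pow]; ring

/-- **Quadratic step.**  `S` is a set of nonzero elements of square norm, closed under products,
products with nonzero squares and `σ`.  If every nonzero `a` over `K` of square norm whose image is in
`S` is a square, then all elements of `S` are squares. -/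
theorem step (h2 : (2 : L) ≠ 0) (σ : L ≃ₐ[K] L) (hs : ∀ x, σ (σ x) = x)
    (hfix : ∀ x : L, σ x = x → ∃ y, algebraMap K L y = x) (θ : L) (hθ0 : θ ≠ 0) (hθ : σ θ = -θ)
    (f : K[X]) (hf : f.Monic) (hodd : Odd f.natDegree) (hirr : Irreducible (fL L f))
    (S : Set (AdjoinRoot (fL L f))) (hS0 : ∀ u ∈ S, u ≠ 0)
    (hSn : ∀ u ∈ S, IsSquare (Algebra.norm L u)) (hSm : ∀ u ∈ S, ∀ v ∈ S, u * v ∈ S)
    (hSq : ∀ u ∈ S, ∀ g : AdjoinRoot (fL L f), g ≠ 0 → u * g ^ 2 ∈ S)
    (hSs : ∀ u ∈ S, sg σ f u ∈ S)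
    (hK : ∀ a : AdjoinRoot f, a ≠ 0 → IsSquare (Algebra.norm K a) → io L f a ∈ S → IsSquare a) :
    ∀ u ∈ S, IsSquare u := by
  have : Fact (Irreducible (fL L f)) := ⟨hirr⟩
  -- fixed classes
  have key : ∀ u ∈ S, ∀ β : AdjoinRoot (fL L f), sg σ f u = u * β ^ 2 → IsSquare u := by
    intro u hu β hβ
    obtain ⟨a, ha0, han, g, hg0, hg⟩ := descent h2 σ hs hfix θ hθ0 hθ f hf hodd hirr u β
      (hS0 u hu) (hSn u hu) hβ
    obtain ⟨b, hb⟩ := hK a ha0 han (by rw [hg]; exact hSq u hu g hg0)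
    refine ⟨io L f b / g, ?_⟩
    rw [hb, map_mul] at hg
    have : u = (io L f b * io L f b) / g ^ 2 := by
      rw [hg, mul_div_cancel_right₀]
      exact pow_ne_zero 2 hg0
    rw [this]
    field_simp
  intro u hu
  have h1 : sg σ f (u * sg σ f u) = (u * sg σ f u) * 1 ^ 2 := by
    rw [map_mul, sg_sg σ hs]; ring
  obtain ⟨b, hb⟩ := key _ (hSm u hu _ (hSs u hu)) 1 h1
  refine key u hu (b / u) ?_
  have hu0 := hS0 u hu
  have h3 : sg σ f u = (b * b) / u := by
    rw [← hb, mul_div_cancel_left₀ _ hu0]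
  rw [h3]
  field_simp

end Fix

end Pool.HT5
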